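import Pool.Agent.Y6.Stm6
import Pool.Agent.Y807.NSDer

/-!
Uniqueness of the solutions on the Fourier side (job 630 of helper6).
-/

open MeasureTheory Set Filter Topology
open scoped ENNReal

set_option autoImplicit false

namespace Pool.Agent.Y244.NS

open Pool.Agent.H356R3.NS hiding K sq
open Pool.Agent.Y6
open Pool.Agent.Y807.NSDer (qk_le_pw en_le norm_Bf_le')

/-- the change of variables -/
def eqv : K × K ≃ K × K where
  toFun p := (p.2, p.1 - p.2)
  invFun p := (p.1 + p.2, p.1)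
  left_inv p := by simp
  right_inv p := by simp

/-- convolution of summable families -/
lemma conv_summ {q b : K → ℝ} (hq : Summable q) (hb : Summable b) (hq0 : ∀ k, 0 ≤ q k)
    (hb0 : ∀ k, 0 ≤ b k) :
    Summable (fun k => ∑' l, q l * b (k - l)) ∧
      ∑' k, ∑' l, q l * b (k - l) = (∑' k, q k) * ∑' k, b k := by
  have s1 : Summable fun p : K × K => q p.1 * b p.2 := hq.mul_of_nonneg hb hq0 hb0
  have s2 : Summable fun p : K × K => q p.2 * b (p.1 - p.2) :=
    (eqv.summable_iff (f := fun p : K × K => q p.1 * b p.2)).2 s1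
  refine ⟨s2.prod, ?_⟩
  rw [← s2.tsum_prod, hq.tsum_mul_tsum hb s1]
  exact eqv.tsum_eq (fun p : K × K => q p.1 * b p.2)

/-- the pairing with a convolution -/
lemma pair_le {a b : K → ℝ} (hb : Summable b) (ha2 : Summable fun k => a k ^ 2) (ha0 : ∀ k, 0 ≤ a k)
    (ha : Summable a) (hb0 : ∀ k, 0 ≤ b k) {ε : ℝ} (hε : 0 < ε) (k : K) :
    nk k * a k * ∑' l, a l * b (k - l) ≤
      ε * (∑' l, b l) * (qk k * a k ^ 2) + 1 / (4 * ε) * ∑' l, a l ^ 2 * b (k - l) := by
  have s0 : Summable fun l => b (k - l) := (Equiv.subLeft k).summable_iff (f := b) |>.2 hb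
  have t0 : ∑' l, b (k - l) = ∑' l, b l := (Equiv.subLeft k).tsum_eq b
  have s1 : Summable fun l => a l * b (k - l) := summ_bb ha hb ha0 hb0 k
  have s2 : Summable fun l => a l ^ 2 * b (k - l) := summ_bb ha2 hb (fun k => sq_nonneg _) hb0 k
  have hq : nk k ^ 2 = qk k := nk_sq k
  rw [← t0, ← tsum_mul_left, ← tsum_mul_left, ← tsum_mul_left, ← tsum_mul_right,
    ← (((s0.mul_left ε).mul_right _).tsum_add (s2.mul_left _))]
  refine (s1.mul_left _).tsum_le_tsum (fun l => ?_) (((s0.mul_left ε).mul_right _).add (s2.mul_left _))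
  have h1 : nk k * a k * a l ≤ ε * (nk k * a k) ^ 2 + 1 / (4 * ε) * a l ^ 2 := by
    have h2 : 0 ≤ (2 * ε * (nk k * a k) - a l) ^ 2 / (4 * ε) := by positivity
    have h3 : (2 * ε * (nk k * a k) - a l) ^ 2 / (4 * ε) =
        ε * (nk k * a k) ^ 2 + 1 / (4 * ε) * a l ^ 2 - nk k * a k * a l := by
      field_simp
      ring
    linarith
  have h4 := mul_le_mul_of_nonneg_right h1 (hb0 (k - l))
  calc nk k * a k * (a l * b (k - l)) = nk k * a k * a l * b (k - l) := by ring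
    _ ≤ _ := h4
    _ = _ := by rw [← hq]; ring

/-- a bound of the right hand side -/
lemma norm_RH_le {y : K → C3} {c D : ℝ} (h : ∀ k, pw k ^ 4 * ‖y k‖ ≤ D) (k : K) :
    ‖RH c y k‖ ≤ (|c| * D + C0 * (∑' l : K, D * (1 / pw l) ^ 4) ^ 2) * pw k ^ 2 := by
  have h1 := norm_Bf_le' h k
  have hp := one_le_pw k
  have hp0 := pw_pos k
  have hq := qk_le_pw k
  have hq0 := qk_nonneg k
  have hy : ‖y k‖ ≤ D := by
    have h4 : 1 ≤ pw k ^ 4 := one_le_pow₀ hp
    have := h k
    have := norm_nonneg (y k)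
    nlinarith
  have hD : 0 ≤ D := (norm_nonneg _).trans hy
  have h2 : ‖-((c * qk k : ℝ)) • y k‖ ≤ |c| * D * pw k ^ 2 := by
    rw [norm_smul, norm_neg, Real.norm_eq_abs, abs_mul, abs_of_nonneg hq0]
    calc |c| * qk k * ‖y k‖ ≤ |c| * pw k ^ 2 * D := by gcongr
      _ = _ := by ring
  have h3 : C0 * pw k * (∑' l : K, D * (1 / pw l) ^ 4) ^ 2 ≤
      C0 * (∑' l : K, D * (1 / pw l) ^ 4) ^ 2 * pw k ^ 2 := by
    have h5 : 0 ≤ C0 * (∑' l : K, D * (1 / pw l) ^ 4) ^ 2 := mul_nonneg C0_pos.le (sq_nonneg _)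
    have h6 : pw k ≤ pw k ^ 2 := by nlinarith
    calc C0 * pw k * (∑' l : K, D * (1 / pw l) ^ 4) ^ 2
        = C0 * (∑' l : K, D * (1 / pw l) ^ 4) ^ 2 * pw k := by ring
      _ ≤ _ := mul_le_mul_of_nonneg_left h6 h5
  unfold RH
  refine (norm_add_le _ _).trans ?_
  rw [add_mul]
  exact add_le_add h2 (h1.trans h3)

/-- the derivative of one term -/
noncomputable def dd (c : ℝ) (x y : K → C3) (k : K) : ℝ :=
  2 * (ipc ((x - y) k) (RH c x k - RH c y k)).re

lemma abs_dd_le {x y : K → C3} {c D D' : ℝ} (h : ∀ k, pw k ^ 4 * ‖x k‖ ≤ D)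
    (h' : ∀ k, pw k ^ 4 * ‖y k‖ ≤ D) (g : ∀ k, pw k ^ (2 + 4) * ‖x k‖ ≤ D')
    (g' : ∀ k, pw k ^ (2 + 4) * ‖y k‖ ≤ D') (k : K) :
    |dd c x y k| ≤ 32 * (|c| * D + C0 * (∑' l : K, D * (1 / pw l) ^ 4) ^ 2) * D' * (1 / pw k) ^ 4 := by
  set A := |c| * D + C0 * (∑' l : K, D * (1 / pw l) ^ 4) ^ 2 with hA
  have h1 := norm_RH_le (c := c) h k
  have h2 := norm_RH_le (c := c) h' k
  rw [← hA] at h1 h2
  have e0 := (summ_of_bound 2 g).2 k
  have e1 := (summ_of_bound 2 g').2 k
  have hp := pw_pos k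
  have n1 : ‖(x - y) k‖ ≤ ‖x k‖ + ‖y k‖ := norm_sub_le _ _
  have n2 : ‖RH c x k - RH c y k‖ ≤ 2 * A * pw k ^ 2 := (norm_sub_le _ _).trans (by linarith)
  have hA0 : 0 ≤ A := by
    have h3 := (norm_nonneg _).trans h1
    exact nonneg_of_mul_nonneg_left h3 (by positivity)
  unfold dd
  rw [abs_mul, abs_of_pos (by norm_num : (0 : ℝ) < 2)]
  have e3 : |(ipc ((x - y) k) (RH c x k - RH c y k)).re| ≤ en ((x - y) k) * en (RH c x k - RH c y k) :=
    (Complex.abs_re_le_norm _).trans (norm_ipc_le _ _)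
  have e4 := en_le ((x - y) k)
  have e5 := en_le (RH c x k - RH c y k)
  have e6 := en_nonneg ((x - y) k)
  have e7 := en_nonneg (RH c x k - RH c y k)
  calc 2 * |(ipc ((x - y) k) (RH c x k - RH c y k)).re|
      ≤ 2 * ((2 * (‖x k‖ + ‖y k‖)) * (2 * (2 * A * pw k ^ 2))) := by
        refine mul_le_mul_of_nonneg_left (e3.trans ?_) (by norm_num)
        refine mul_le_mul (e4.trans (mul_le_mul_of_nonneg_left n1 (by norm_num)))
          (e5.trans (mul_le_mul_of_nonneg_left n2 (by norm_num))) e7 (by positivity)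
    _ = 16 * A * (pw k ^ 2 * ‖x k‖ + pw k ^ 2 * ‖y k‖) := by ring
    _ ≤ 16 * A * (D' * (1 / pw k) ^ 4 + D' * (1 / pw k) ^ 4) := by gcongr
    _ = _ := by ring

lemma dd_le {x y : K → C3} {c : ℝ} {b : K → ℝ} (hb : Summable b) (hx : ∀ k, ‖x k‖ ≤ b k)
    (hy : ∀ k, ‖y k‖ ≤ b k) {ε : ℝ} (hε : 0 < ε) (hεc : 4 * C0 * (ε * ∑' l, b l) ≤ c) (k : K) :
    dd c x y k ≤ 2 * C0 / ε * ∑' l, en2 ((x - y) l) * b (k - l) := by
  have hb0 : ∀ k, 0 ≤ b k := fun k => (norm_nonneg _).trans (hx k)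
  have sx : SN x := hb.of_nonneg_of_le (fun _ => norm_nonneg _) hx
  have sy : SN y := hb.of_nonneg_of_le (fun _ => norm_nonneg _) hy
  set d := x - y with hd
  set a : K → ℝ := fun k => en (d k) with ha
  have ha0 : ∀ k, 0 ≤ a k := fun k => en_nonneg _
  have sd : SN d := sx.sub sy
  have sa : Summable a := by
    refine (sd.mul_left 2).of_nonneg_of_le ha0 fun k => ?_
    exact en_le _
  have sa2 : Summable fun k => a k ^ 2 := by
    refine (sa.mul_right (∑' k, a k)).of_nonneg_of_le (fun k => sq_nonneg _) fun k => ?_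
    rw [sq]
    exact mul_le_mul_of_nonneg_left (sa.le_tsum k fun _ _ => ha0 _) (ha0 k)
  have hda : ∀ k, ‖d k‖ ≤ a k := fun k => norm_le_en _
  have b1 := norm_Bf_conv sa hb hda hx k
  have b2 := norm_Bf_conv hb sa hy hda k
  have b3 : ∑' l, b l * a (k - l) = ∑' l, a l * b (k - l) := by
    rw [← (Equiv.subLeft k).tsum_eq (fun l => b l * a (k - l))]
    refine tsum_congr fun l => ?_
    simp only [Equiv.subLeft_apply, sub_sub_cancel]
    ring
  rw [b3] at b2
  have hpair := pair_le hb sa2 ha0 sa hb0 hε k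
  set F := ∑' l, a l ^ 2 * b (k - l) with hF
  set P := ∑' l, a l * b (k - l) with hP
  have hdiff : RH c x k - RH c y k = -((c * qk k : ℝ)) • d k + (Bf d x k + Bf y d k) := by
    have h1 : Bf x x k - Bf y y k = Bf d x k + Bf y d k := by
      have := congrFun (Bf_diff sx sy) k
      simpa using this
    unfold RH
    rw [← h1, hd, Pi.sub_apply, smul_sub]
    abel
  have hsplit : (ipc (d k) (RH c x k - RH c y k)).re =
      -(c * qk k) * a k ^ 2 + (ipc (d k) (Bf d x k + Bf y d k)).re := by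
    rw [hdiff]
    have h2 : ipc (d k) (-((c * qk k : ℝ)) • d k + (Bf d x k + Bf y d k)) =
        ((-(c * qk k) : ℝ) : ℂ) * ipc (d k) (d k) + ipc (d k) (Bf d x k + Bf y d k) := by
      unfold ipc
      rw [Finset.mul_sum, ← Finset.sum_add_distrib]
      refine Finset.sum_congr rfl fun i _ => ?_
      simp only [Pi.add_apply, Pi.smul_apply, Complex.real_smul]
      ring
    rw [h2, ipc_self, Complex.add_re, ← Complex.ofReal_mul, Complex.ofReal_re, ha]
    simp only [en_sq]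
  have hest : (ipc (d k) (Bf d x k + Bf y d k)).re ≤ 4 * C0 * (nk k * a k * P) := by
    have e3 : (ipc (d k) (Bf d x k + Bf y d k)).re ≤ en (d k) * en (Bf d x k + Bf y d k) :=
      (le_abs_self _).trans ((Complex.abs_re_le_norm _).trans (norm_ipc_le _ _))
    have e4 : en (Bf d x k + Bf y d k) ≤ 2 * (C0 * nk k * P + C0 * nk k * P) :=
      (en_le _).trans (mul_le_mul_of_nonneg_left ((norm_add_le _ _).trans (add_le_add b1 b2))
        (by norm_num))
    calc _ ≤ en (d k) * (2 * (C0 * nk k * P + C0 * nk k * P)) :=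
          e3.trans (mul_le_mul_of_nonneg_left e4 (en_nonneg _))
      _ = _ := by rw [ha]; ring
  have hC0 := C0_pos
  have hfin : 4 * C0 * (nk k * a k * P) ≤ c * (qk k * a k ^ 2) + C0 / ε * F := by
    have h5 : 4 * C0 * (nk k * a k * P) ≤ 4 * C0 * (ε * (∑' l, b l) * (qk k * a k ^ 2) +
        1 / (4 * ε) * F) := mul_le_mul_of_nonneg_left hpair (by positivity)
    have h6 : 4 * C0 * (ε * (∑' l, b l) * (qk k * a k ^ 2)) ≤ c * (qk k * a k ^ 2) := by
      have h7 : 0 ≤ qk k * a k ^ 2 := mul_nonneg (qk_nonneg k) (sq_nonneg _)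
      calc _ = 4 * C0 * (ε * ∑' l, b l) * (qk k * a k ^ 2) := by ring
        _ ≤ _ := mul_le_mul_of_nonneg_right hεc h7
    have h8 : 4 * C0 * (1 / (4 * ε) * F) = C0 / ε * F := by
      field_simp
    rw [mul_add, h8] at h5
    linarith
  have hF' : ∑' l, en2 (d l) * b (k - l) = F := by
    rw [hF]
    refine tsum_congr fun l => ?_
    rw [ha]
    simp only [en_sq]
  unfold dd
  rw [← hd, hF', hsplit]
  have h9 : 2 * C0 / ε * F = 2 * (C0 / ε * F) := by ring
  rw [h9]
  linarith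

/-- **Uniqueness.** -/
theorem t_uniqF : Pool.Agent.Y6.St_uniqF := by
  intro c T Q u w hc _ hu hw h0 t ht
  obtain ⟨T', h1, h2⟩ := exists_between ht.2
  obtain ⟨D1, hD1⟩ := hu.rap T' h2 4
  obtain ⟨D2, hD2⟩ := hw.rap T' h2 4
  obtain ⟨D3, hD3⟩ := hu.rap T' h2 (2 + 4)
  obtain ⟨D4, hD4⟩ := hw.rap T' h2 (2 + 4)
  set D := max D1 D2 with hD
  set D' := max D3 D4 with hD'
  have eu : ∀ s ∈ Icc 0 T', ∀ k, pw k ^ 4 * ‖u s k‖ ≤ D := fun s hs k =>
    (hD1 s hs k).trans (le_max_left _ _)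
  have ew : ∀ s ∈ Icc 0 T', ∀ k, pw k ^ 4 * ‖w s k‖ ≤ D := fun s hs k =>
    (hD2 s hs k).trans (le_max_right _ _)
  have fu : ∀ s ∈ Icc 0 T', ∀ k, pw k ^ (2 + 4) * ‖u s k‖ ≤ D' := fun s hs k =>
    (hD3 s hs k).trans (le_max_left _ _)
  have fw : ∀ s ∈ Icc 0 T', ∀ k, pw k ^ (2 + 4) * ‖w s k‖ ≤ D' := fun s hs k =>
    (hD4 s hs k).trans (le_max_right _ _)
  obtain ⟨M, hM⟩ : ∃ M : ℝ, ∀ s ∈ Icc 0 T', ∀ k, |dd c (u s) (w s) k| ≤ M * (1 / pw k) ^ 4 :=
    ⟨_, fun s hs k => abs_dd_le (eu s hs) (ew s hs) (fu s hs) (fw s hs) k⟩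
  set b : K → ℝ := fun k => D * (1 / pw k) ^ 4 with hb
  have sb : Summable b := summ_pw4.mul_left D
  have bu : ∀ s ∈ Icc 0 T', ∀ k, ‖u s k‖ ≤ b k := fun s hs k => by
    have := (summ_of_bound (f := fun k => ‖u s k‖) 0 (by simpa using eu s hs)).2 k
    rwa [pow_zero, one_mul] at this
  have bw : ∀ s ∈ Icc 0 T', ∀ k, ‖w s k‖ ≤ b k := fun s hs k => by
    have := (summ_of_bound (f := fun k => ‖w s k‖) 0 (by simpa using ew s hs)).2 k
    rwa [pow_zero, one_mul] at this
  have hT0 : (0 : ℝ) ∈ Icc 0 T' := ⟨le_rfl, ht.1.trans h1.le⟩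
  have hb0 : ∀ k, 0 ≤ b k := fun k => (norm_nonneg _).trans (bu 0 hT0 k)
  set B := ∑' l, b l with hB
  have hB0 : 0 ≤ B := tsum_nonneg hb0
  have hC0 := C0_pos
  set ε : ℝ := c / (4 * C0 * B + 1) with hε
  have hε0 : 0 < ε := by positivity
  have hεc : 4 * C0 * (ε * B) ≤ c := by
    rw [hε]
    have h3 : 4 * C0 * (c / (4 * C0 * B + 1) * B) = c * (4 * C0 * B / (4 * C0 * B + 1)) := by
      field_simp
    rw [h3]
    have h4 : 4 * C0 * B / (4 * C0 * B + 1) ≤ 1 := by
      rw [div_le_one (by positivity)]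
      linarith
    nlinarith
  -- the energy of the difference
  set g : ℝ → ℝ := fun s => ∑' k, en2 ((u s - w s) k) with hg
  have hsub : ∀ s ∈ Ioo 0 T', s ∈ Icc 0 T' ∧ s ∈ Ioo 0 T := fun s hs =>
    ⟨Ioo_subset_Icc_self hs, hs.1, hs.2.trans h2⟩
  have en2d : ∀ s ∈ Icc 0 T', ∀ k, en2 ((u s - w s) k) ≤ 12 * D * b k := by
    intro s hs k
    have n1 : ‖(u s - w s) k‖ ≤ 2 * b k := (norm_sub_le _ _).trans (by linarith [bu s hs k, bw s hs k])
    have n2 := en2_le ((u s - w s) k)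
    have n3 : b k ≤ D := by
      have hp := one_le_pw k
      have h5 : (1 / pw k) ^ 4 ≤ 1 := by
        refine pow_le_one₀ (by have := pw_pos k; positivity) ?_
        rw [div_le_one (pw_pos k)]
        exact hp
      have hDn : 0 ≤ D := by
        have := (mul_nonneg (pow_nonneg (pw_pos (0 : K)).le 4) (norm_nonneg (u 0 0))).trans (eu 0 hT0 0)
        exact this
      calc b k = D * (1 / pw k) ^ 4 := rfl
        _ ≤ D * 1 := mul_le_mul_of_nonneg_left h5 hDn
        _ = D := mul_one D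
    have n4 := hb0 k
    have n5 := norm_nonneg ((u s - w s) k)
    calc en2 ((u s - w s) k) ≤ 3 * ‖(u s - w s) k‖ ^ 2 := n2
      _ ≤ 3 * (2 * b k) ^ 2 := by gcongr
      _ = 12 * b k * b k := by ring
      _ ≤ 12 * D * b k := by gcongr
  have sg : ∀ s ∈ Icc 0 T', Summable fun k => en2 ((u s - w s) k) := fun s hs =>
    (sb.mul_left (12 * D)).of_nonneg_of_le (fun k => en2_nonneg _) (en2d s hs)
  have hcont : ContinuousOn g (Icc 0 T') := by
    rw [hg]
    refine continuousOn_tsum (u := fun k => 12 * D * b k) (fun k => ?_) (sb.mul_left _)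
      (fun k s hs => ?_)
    · have hI : Icc 0 T' ⊆ Ico 0 T := fun s hs => ⟨hs.1, hs.2.trans_lt h2⟩
      have c1 := (hu.cont k).mono hI
      have c2 := (hw.cont k).mono hI
      unfold en2
      refine continuousOn_finsetSum _ fun i _ => ?_
      exact (((continuous_apply i).comp_continuousOn c1).sub
        ((continuous_apply i).comp_continuousOn c2)).norm.pow 2
    · rw [Real.norm_eq_abs, abs_of_nonneg (en2_nonneg _)]
      exact en2d s hs k
  have hterm : ∀ (k : K) (s : ℝ), s ∈ Ioo 0 T' →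
      HasDerivAt (fun s => en2 ((u s - w s) k)) (dd c (u s) (w s) k) s := by
    intro k s hs
    obtain ⟨-, hs2⟩ := hsub s hs
    by_cases hk : k ∈ Q
    · have d1 := (hu.ode s hs2 k hk).sub (hw.ode s hs2 k hk)
      exact hasDerivWithinAt_univ.1 (en2_deriv (hasDerivWithinAt_univ.2 d1))
    · have z1 : ∀ r ∈ Ioo 0 T, (u r - w r) k = 0 := fun r hr => by
        rw [Pi.sub_apply, hu.supp r (Ioo_subset_Ico_self hr) k hk, hw.supp r (Ioo_subset_Ico_self hr) k hk,
          sub_zero]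
      have z2 : (fun s => en2 ((u s - w s) k)) =ᶠ[𝓝 s] fun _ => 0 := by
        filter_upwards [Ioo_mem_nhds hs2.1 hs2.2] with r hr
        rw [z1 r hr, en2_zero]
      have z3 : dd c (u s) (w s) k = 0 := by
        unfold dd
        rw [z1 s hs2]
        simp [ipc]
      rw [z3]
      exact (hasDerivAt_const s (0 : ℝ)).congr_of_eventuallyEq z2
  have hdg : ∀ s ∈ Ioo 0 T', HasDerivAt g (∑' k, dd c (u s) (w s) k) s := by
    intro s hs
    refine hasDerivAt_tsum_of_isPreconnected (u := fun k => M * (1 / pw k) ^ 4)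
      (summ_pw4.mul_left _) isOpen_Ioo isPreconnected_Ioo hterm (fun k r hr => ?_) hs
      (sg s (hsub s hs).1) hs
    rw [Real.norm_eq_abs]
    exact hM r (hsub r hr).1 k
  set L : ℝ := 2 * C0 / ε * B with hL
  have hgle : ∀ s ∈ Ioo 0 T', ∑' k, dd c (u s) (w s) k ≤ L * g s := by
    intro s hs
    have hs' := (hsub s hs).1
    obtain ⟨c1, c2⟩ := conv_summ (sg s hs') sb (fun k => en2_nonneg _) hb0
    have s1 : Summable fun k => dd c (u s) (w s) k :=
      Summable.of_norm_bounded (summ_pw4.mul_left M) fun k => by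
        rw [Real.norm_eq_abs]
        exact hM s hs' k
    calc ∑' k, dd c (u s) (w s) k
        ≤ ∑' k, 2 * C0 / ε * ∑' l, en2 ((u s - w s) l) * b (k - l) :=
          s1.tsum_le_tsum (fun k => dd_le sb (bu s hs') (bw s hs') hε0 hεc k) (c1.mul_left _)
      _ = 2 * C0 / ε * ((∑' k, en2 ((u s - w s) k)) * B) := by rw [tsum_mul_left, c2]
      _ = L * g s := by rw [hL, hg]; ring
  -- Gronwall
  have hG : ∀ s ∈ Ioo 0 T', HasDerivAt (fun s => g s * Real.exp (-(L * s)))
      ((∑' k, dd c (u s) (w s) k) * Real.exp (-(L * s)) + g s * (Real.exp (-(L * s)) * (-L))) s := by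
    intro s hs
    have e1 : HasDerivAt (fun s => Real.exp (-(L * s))) (Real.exp (-(L * s)) * (-L)) s := by
      have e2 : HasDerivAt (fun s : ℝ => -(L * s)) (-L) s := by
        have e3 := ((hasDerivAt_id s).const_mul L).fun_neg
        rw [mul_one] at e3
        exact e3
      exact e2.exp
    exact (hdg s hs).fun_mul e1
  have hanti : AntitoneOn (fun s => g s * Real.exp (-(L * s))) (Icc 0 T') := by
    refine antitoneOn_of_deriv_nonpos (convex_Icc 0 T') ?_ ?_ ?_
    · exact hcont.mul (Continuous.continuousOn (by fun_prop))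
    · intro s hs
      rw [interior_Icc] at hs
      exact (hG s hs).differentiableAt.differentiableWithinAt
    · intro s hs
      rw [interior_Icc] at hs
      rw [(hG s hs).deriv]
      have h6 := hgle s hs
      have h7 := Real.exp_pos (-(L * s))
      have h8 : (∑' k, dd c (u s) (w s) k) * Real.exp (-(L * s)) + g s * (Real.exp (-(L * s)) * (-L)) =
          ((∑' k, dd c (u s) (w s) k) - L * g s) * Real.exp (-(L * s)) := by ring
      rw [h8]
      exact mul_nonpos_of_nonpos_of_nonneg (by linarith) h7.le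
  have hg0 : g 0 = 0 := by
    rw [hg]
    simp [h0, en2_zero]
  have ht' : t ∈ Icc 0 T' := ⟨ht.1, h1.le⟩
  have hfin := hanti hT0 ht' ht.1
  simp only [hg0, zero_mul] at hfin
  have hgt : g t = 0 := by
    have h8 := Real.exp_pos (-(L * t))
    have h9 : 0 ≤ g t := tsum_nonneg fun k => en2_nonneg _
    nlinarith
  have hall : ∀ k, en2 ((u t - w t) k) = 0 := by
    have h12 := (sg t ht').hasSum
    rw [show ∑' k, en2 ((u t - w t) k) = 0 from hgt] at h12
    have := (hasSum_zero_iff_of_nonneg (fun k => en2_nonneg ((u t - w t) k))).1 h12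
    exact fun k => congrFun this k
  funext k
  have h10 := norm_le_en ((u t - w t) k)
  rw [en, hall k, Real.sqrt_zero] at h10
  have h11 := norm_le_zero_iff.1 h10
  exact sub_eq_zero.1 h11

end Pool.Agent.Y244.NS
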